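import Pool.Agent.Helper23.AC.Peel

/-! AC-13: the space, as a completion (MP_981e7e_an) -/

set_option autoImplicit false

namespace Pool.Agent.Helper46.AC

open Pool.Agent.Helper23.AC UniformSpace

/-- `res E` as a linear map -/
noncomputable def resL (E : Set ℕ) : Fn →ₗ[ℝ] Fn where
  toFun := res E
  map_add' := res_add E
  map_smul' a f := res_smul E a f

theorem exists_model_of (h_nonneg : ∀ x, 0 ≤ nx x) (h_smul : ∀ (a : ℝ) (x : Fn), nx (a • x) = |a| * nx x)
    (h_add : ∀ x y, nx (x + y) ≤ nx x + nx y) (h_res : ∀ (E : Set ℕ) (x : Fn), nx (res E x) ≤ nx x) :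
    ∃ (X : Type) (_ : NormedAddCommGroup X) (_ : NormedSpace ℝ X)
    (_ : CompleteSpace X), Nonempty (Model X) := by
  let N : Norm Fn := ⟨nx⟩
  have core : SeminormedSpace.Core ℝ Fn :=
    { norm_nonneg := h_nonneg
      norm_smul := fun a x => h_smul a x
      norm_triangle := h_add }
  let i1 : SeminormedAddCommGroup Fn := SeminormedAddCommGroup.ofCore core
  let i2 : NormedSpace ℝ Fn := { norm_smul_le := fun a x => (h_smul a x).le }
  let R : ℕ → (Fn →L[ℝ] Fn) := fun m => (resL {n | n < m}).mkContinuous 1 (fun x => by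
    rw [one_mul]; exact h_res _ x)
  refine ⟨Completion Fn, inferInstance, inferInstance, inferInstance, ⟨?_⟩⟩
  refine
    { ι := (Completion.toComplₗᵢ (𝕜 := ℝ) (E := Fn)).toLinearMap
      norm_ι := fun x => Completion.norm_coe x
      dense := Completion.denseRange_coe
      P := fun m => (R m).completion
      hP := fun m x => ContinuousLinearMap.completion_apply_coe (R m) x
      normP := ?_ }
  intro m x
  induction x using Completion.induction_on with
  | hp => exact isClosed_le (by fun_prop) (by fun_prop)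
  | ih x =>
    rw [ContinuousLinearMap.completion_apply_coe, Completion.norm_coe, Completion.norm_coe]
    exact h_res _ x

/-! ### the facts on `nx` used above -/

/-- the hull of the norming set -/
def KH : Set Fn := convexHull ℝ {f : Fn | Good 0 f}

theorem KH_convex : Convex ℝ KH := convex_convexHull ℝ _

theorem KH_zero : (0 : Fn) ∈ KH := subset_convexHull ℝ _ (good_zero 0)

theorem KH_neg : ∀ x ∈ KH, -x ∈ KH := by
  have h1 : (convexHull ℝ {f : Fn | Good 0 f}) ⊆ (-(LinearMap.id : Fn →ₗ[ℝ] Fn)) ⁻¹'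
      (convexHull ℝ {f : Fn | Good 0 f}) := by
    apply convexHull_min
    · intro x hx
      refine subset_convexHull ℝ _ ?_
      have h2 : Good 0 ((-1 : ℝ) • x) := good_smul hx (by simp)
      rw [neg_one_smul] at h2
      exact h2
    · exact (convex_convexHull ℝ _).linear_preimage _
  exact fun x hx => h1 hx

theorem KH_res (E : Set ℕ) : ∀ x ∈ KH, res E x ∈ KH := by
  have h1 : (convexHull ℝ {f : Fn | Good 0 f}) ⊆ (resL E) ⁻¹' (convexHull ℝ {f : Fn | Good 0 f}) := by
    apply convexHull_min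
    · intro x hx
      exact subset_convexHull ℝ _ (good_res hx E)
    · exact (convex_convexHull ℝ _).linear_preimage _
  exact fun x hx => h1 hx

theorem KH_single (n : ℕ) : (Finsupp.single n (1/8 : ℝ) : Fn) ∈ KH :=
  subset_convexHull ℝ _ (typ_good (v := 1) (typ_single n (by norm_num)) le_rfl (Nat.zero_le _))

theorem KH_absorbent : Absorbent ℝ KH := by
  intro x
  rw [absorbs_iff_norm]
  refine ⟨8 * ∑ n ∈ x.support, |x n| + 1, fun c hc => ?_⟩
  have hS : 0 ≤ ∑ n ∈ x.support, |x n| := Finset.sum_nonneg fun _ _ => abs_nonneg _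
  have hc0 : 0 < ‖c‖ := by linarith
  have hc1 : c ≠ 0 := norm_pos_iff.1 hc0
  rw [Set.singleton_subset_iff, Set.mem_smul_set_iff_inv_smul_mem₀ hc1]
  have h1 : c⁻¹ • x = ∑ n ∈ x.support, (c⁻¹ * (8 * x n)) • (Finsupp.single n (1/8 : ℝ) : Fn) := by
    conv_lhs => rw [← Finsupp.sum_single x]
    rw [Finsupp.sum, Finset.smul_sum]
    refine Finset.sum_congr rfl fun n _ => ?_
    rw [Finsupp.smul_single, Finsupp.smul_single, smul_eq_mul, smul_eq_mul]
    congr 1
    ring
  rw [h1]
  refine abs_comb_mem KH_convex KH_zero KH_neg _ _ _ (fun n _ => KH_single n) ?_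
  have h2 : ∑ n ∈ x.support, |c⁻¹ * (8 * x n)| = |c|⁻¹ * (8 * ∑ n ∈ x.support, |x n|) := by
    rw [Finset.mul_sum, Finset.mul_sum]
    refine Finset.sum_congr rfl fun n _ => ?_
    rw [abs_mul, abs_mul, abs_inv, abs_of_pos (show (0 : ℝ) < 8 by norm_num)]
  rw [h2, inv_mul_le_iff₀ (by simpa using hc0), mul_one]
  rw [Real.norm_eq_abs] at hc
  linarith

theorem nx_eq (x : Fn) : nx x = gauge KH x := rfl

theorem exists_model : ∃ (X : Type) (_ : NormedAddCommGroup X) (_ : NormedSpace ℝ X)
    (_ : CompleteSpace X), Nonempty (Model X) := by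
  refine exists_model_of (fun x => gauge_nonneg _) ?_ (fun x y => ?_) (fun E x => ?_)
  · intro a x
    rcases le_total 0 a with h | h
    · have h2 : gauge KH (a • x) = a • gauge KH x := gauge_smul_of_nonneg h x
      rw [nx_eq, h2, abs_of_nonneg h]; rfl
    · have h1 : a • x = -((-a) • x) := by rw [neg_smul, neg_neg]
      have h2 : gauge KH ((-a) • x) = (-a) • gauge KH x := gauge_smul_of_nonneg (neg_nonneg.2 h) x
      rw [nx_eq, h1, gauge_neg KH_neg, h2, abs_of_nonpos h]; rfl
  · exact gauge_add_le KH_convex KH_absorbent x y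
  · refine le_csInf KH_absorbent.gauge_set_nonempty ?_
    rintro r ⟨hr, hx⟩
    refine gauge_le_of_mem hr.le ?_
    rw [Set.mem_smul_set_iff_inv_smul_mem₀ hr.ne'] at hx ⊢
    rw [← res_smul]
    exact KH_res E _ hx

end Pool.Agent.Helper46.AC

namespace Pool.Agent.Helper23.AC

theorem exists_model : ∃ (X : Type) (_ : NormedAddCommGroup X) (_ : NormedSpace ℝ X)
    (_ : CompleteSpace X), Nonempty (Model X) :=
  Pool.Agent.Helper46.AC.exists_model

end Pool.Agent.Helper23.AC
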